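import Pool.Agent.PB.FNeq
import Pool.Agent.PB.DomL
import Pool.Agent.PB.HPot
import Pool.Agent.PB.ValD
import Pool.Agent.SeaU.InstM
import Pool.Agent.SeaU.S4F
import Pool.Agent.IST.SpRow

/-!
# UB: the neutral leg function of the rows `0^p (± l / 2)^q E`, definitions (helper79)

* `ctn p q E`: the list of the rows, `siz`: their number; `fL mu z`: the landed function `fN` of a list;
  `Win n0 h E`: at most `n0` rows, `|Re| ≤ l / 2`, `|Im| ≤ h`;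
* `seaT s`: the sea of the mixture (`NUSea.seaM`, clamped), `thc q m = 2 q / m`;
* `obC`: the one body data, `HC`: its potential against the sea of all rows and the ends `ThN`;
* `Spk`: spectators: finitely many atoms on the curve, bounded on the constituents of the objects;
* `EnvU`, `CutU`, `OneU`, `ValU`: the four inputs; `UBd A`: the bound.
-/

set_option autoImplicit false
set_option linter.unusedSectionVars false
set_option linter.unusedVariables false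

noncomputable section

open Complex MeasureTheory Finset Filter Topology
open scoped ENNReal

namespace UBC

open NUMF (l l_pos)
open NUO (pA Tb TW Xo ht kd ei rr colK act)
open PBX (rwC thZ)
open PBH (Atm AtOk HS)
open PotH (HOk CutR CrvP)
open NUGC (OB ThN etaC etaC' hC)

/-! ### rows -/

/-- the rows: `E`, `p` rows `0`, `q` pairs `± l / 2` -/
def ctn (p q : ℕ) (E : List ℂ) : List ℂ :=
  E ++ (List.replicate p (0 : ℂ) ++ (List.replicate q ((l / 2 : ℝ) : ℂ) ++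
    List.replicate q ((-(l / 2) : ℝ) : ℂ)))

/-- number of rows -/
def siz (p q : ℕ) (E : List ℂ) : ℕ := E.length + p + 2 * q

theorem length_ctn (p q : ℕ) (E : List ℂ) : (ctn p q E).length = siz p q E := by
  unfold ctn siz
  simp
  ring

/-- the rows as a family -/
def rowC (p q : ℕ) (E : List ℂ) : Fin (ctn p q E).length → ℂ := fun i => (ctn p q E).get i

/-- the landed function of a list of rows -/
def fL (mu : List ℂ) (z : ℂ) : ℂ := Pool.Agent.PB.fN (fun i : Fin mu.length => mu.get i) z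

/-- at most `n0` rows, `|Re| ≤ l / 2`, height at most `h` -/
structure Win (n0 : ℕ) (h : ℝ) (E : List ℂ) : Prop where
  len : E.length ≤ n0
  re : ∀ x ∈ E, |x.re| ≤ l / 2
  im : ∀ x ∈ E, |x.im| ≤ h

/-- the height `(1 - ε) (3 / 8) log m` -/
def Hh (ε : ℝ) (m : ℕ) : ℝ := (1 - ε) * Tb (Real.log m)

/-! ### seas -/

/-- the sea of the mixture -/
@[reducible] def seaT (s : ℝ) : NUSea.Sea := NUSea.seaM (max 0 (min 1 s))
  (by linarith [le_max_left 0 (min 1 s)])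
  ((max_le (by norm_num) (min_le_left _ _)).trans (by norm_num : (1 : ℝ) ≤ 7))

theorem seaU_T (s : ℝ) : @NUSea.SeaU NUSea.SM (seaT s) := NUSea.seaU_M _ _ _

/-- the proportion of the rows `± l / 2` -/
def thc (q m : ℕ) : ℝ := 2 * q / m

/-! ### one body data -/

/-- the one body data: rows `ctn p q E` (cutoff with the points `± i`), spectators `g` -/
def obC (p q : ℕ) (E : List ℂ) (β : ℝ) (g : Bool → ℂ → ℝ) : OB :=
  PBX.obL (2 * Real.cos NUP1.l) β (ctn p q E) [I, -I] [] g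

/-- the potential against the sea of all rows and the ends -/
def HC (E : List ℂ) (g : Bool → ℂ → ℝ) (η : ℝ → ℝ) (a : Bool) (t : ℝ) : ℝ :=
  Real.log (g a (pA η t)) +
    (E.map fun x => Real.log (rwC x (pA η t)) - Real.log (rwC 0 (pA η t))).sum -
    Real.log (ThN (pA η t))

/-- **spectators**: at most `n1` atoms of strength `K` at distance `δ` from the line of the quanta, bounded
by `G` on the constituents of the objects -/
structure Spk (n1 : ℕ) (K δ G : ℝ) (g : Bool → ℂ → ℝ) : Prop where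
  nn : ∀ a u, 0 ≤ g a u
  atm : ∃ (n : ℕ) (x : Bool → Fin n → Atm), n ≤ n1 ∧ AtOk K δ x ∧
    ∀ η : ℝ → ℝ, (∀ t, |η t| ≤ δ / 2) → ∀ a t,
      0 < g a (pA η t) ∧ Real.log (g a (pA η t)) = HS x η a t
  obj : SPR.SpL G (1 / 100) g

/-- the spectators as a geometry (one size; `X` = mean field value) -/
def GC (p q : ℕ) (E : List ℂ) (g : Bool → ℂ → ℝ) (X : ℝ) : PBO.Geo where
  B _ β := obC p q E β g
  one m ep e1 J _ O i := @PotH.oneEH (seaT (thc q (siz p q E))) m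
    (@etaC (seaT (thc q (siz p q E))) e1 J m m) (TW ep e1 m) _ O i
  EM := X / (siz p q E : ℝ) ^ 2
  MF _ _ := 0

/-- the integral of the potential -/
def intH [NUSea.Sea] (p q : ℕ) (E : List ℂ) (g : Bool → ℂ → ℝ) (e1 J : ℝ) (m : ℕ) : ℝ :=
  ∑ a : Bool, ∫ t, (m : ℝ) * NUSea.P t * HC E g (etaC e1 J m m) a t

/-! ### the inputs -/

/-- **potential** (owner: 20): on the curve, `m = siz p q E` -/
def EnvU : Prop := ∀ (n0 n1 : ℕ) (K δ G : ℝ), 0 ≤ K → 0 < δ → δ ≤ l / 4 →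
  ∃ B0 N0 : ℝ, 0 ≤ B0 ∧ 0 ≤ N0 ∧
  ∀ ep : ℝ, 0 < ep → ep ≤ 1 / 100 → ∀ e1 : ℝ, 0 < e1 → e1 ≤ 1 / 100 → ∀ J : ℝ, 0 ≤ J →
  ∃ m0 : ℕ, ∀ (p q : ℕ) (E : List ℂ), m0 ≤ siz p q E → Win n0 (Real.log (siz p q E)) E →
  ∀ g : Bool → ℂ → ℝ, Spk n1 K δ G g → ∀ m : ℕ, m = siz p q E → ∀ η : ℝ → ℝ,
    η = @etaC (seaT (thc q m)) e1 J m m →
    (∃ H' : Bool → ℝ → ℝ, ∀ d : ℝ, 0 ≤ d →
      HOk B0 N0 d ((1 - e1) * Tb (Real.log m)) (Real.log m ^ 3) (HC E g η) H') ∧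
    ∀ a t, (obC p q E (4 / 3 * (1 - ep)) g).R a (pA η t) =
      2 * Real.cos NUP1.l *
        Real.exp ((m : ℝ) * (@NUSea.vc (seaT (thc q m)) (NUAct.zt (NUKer.iD η) t)).re) *
        ThN (pA η t) * Real.exp (HC E g η a t)

/-- **cutoff** (owner: 35) -/
def CutU : Prop := ∀ (n0 : ℕ) (ε : ℝ), 0 < ε → ∀ ep : ℝ, 0 < ep → ep ≤ 1 / 100 → ∀ e1 : ℝ, 0 < e1 →
  e1 ≤ 1 / 100 → ∀ J : ℝ, 0 ≤ J → ∃ C0 : ℝ, 1 ≤ C0 ∧ ∃ m0 : ℕ,
  ∀ (p q : ℕ) (E : List ℂ) (m : ℕ), m = siz p q E → m0 ≤ m → Win n0 (Hh ε m) E →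
    ∃ Bc Bc' : ℝ → ℝ, @CutR (seaT (thc q m)) ep C0 ((1 - e1) * Tb (Real.log m)) m
      (fun t => ‖NUP1.phi (4 / 3 * (1 - ep)) (ctn p q E ++ [I, -I])
        (pA (@etaC (seaT (thc q m)) e1 J m m) t)‖) Bc Bc'

/-- **objects** (owner: 79, 1) -/
def OneU : Prop := ∀ (n0 n1 : ℕ) (K δ G ε : ℝ), 0 < ε → ∀ (K0 : ℝ) (k0 : ℕ),
  ∃ C c : ℝ, 0 < C ∧ 0 < c ∧ ∀ ep : ℝ, 0 < ep → ep ≤ 1 / 100 → ∀ e1 : ℝ, 0 < e1 → e1 ≤ 1 / 100 →
  ∀ J : ℝ, 0 ≤ J → ∃ m0 : ℕ, ∀ (p q : ℕ) (E : List ℂ) (m : ℕ), m = siz p q E → m0 ≤ m →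
    Win n0 (Hh ε m) E → ∀ g : Bool → ℂ → ℝ, Spk n1 K δ G g → ∀ X : ℝ,
    @PBI.OneAt (seaT (thc q m)) (GC p q E g X) K0 k0 C c ep e1 J m

/-- **value of the leg function** (owner: 15) -/
def ValU : Prop := ∀ (n0 : ℕ) (ε : ℝ), 0 < ε → ∀ e1 : ℝ, 0 < e1 → e1 ≤ 1 / 100 → ∀ J : ℝ, 0 ≤ J →
  ∃ C : ℝ, 0 ≤ C ∧ ∃ m0 : ℕ, ∀ (p q : ℕ) (E : List ℂ) (m : ℕ), m = siz p q E → m0 ≤ m →
    Win n0 (Real.log m) E → ∀ z : ℂ, -(9 / 10 * l) ≤ z.re → z.re < 37 / 10 * l →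
    |z.im| ≤ Real.log m →
    ‖Pool.Agent.PB.Pf z (rowC p q E) (rowC p q E)‖ *
      Real.exp (@NUSea.MF (seaT (thc q m)) m +
        @intH (seaT (thc q m)) p q E (fun _ u => thZ z u) e1 J m) ≤
      C * Real.exp (24 * l * hC e1 J m 0 - 12 * l * hC e1 J m z.im)

/-! ### the outputs -/

/-- **UB**: the neutral leg function of every real content with finitely many further rows -/
def UBd (A : ℝ) (Q : ℕ → ℕ → Prop) : Prop := ∀ (n0 : ℕ) (ε : ℝ), 0 < ε → ∃ m0 : ℕ,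
  ∀ (p q : ℕ) (E : List ℂ), m0 ≤ siz p q E → Q p q → Win n0 (Hh ε (siz p q E)) E →
  ∀ z : ℂ, -(9 / 10 * l) ≤ z.re → z.re < 37 / 10 * l →
    |z.im| ≤ 3 / 20 * Real.log (siz p q E) + 2 →
    ‖fL (ctn p q E) z‖ ≤ (siz p q E : ℝ) ^ (A + ε) * Real.exp (2 * |z.im|)

/-- **UB for any one body functions** dominated by spectators, no groups: the sum over the numbers of
quanta and all objects -/
def UBS (A : ℝ) (Q : ℕ → ℕ → Prop) : Prop := ∀ (n0 n1 : ℕ) (K δ G : ℝ), 0 ≤ K → 0 < δ → δ ≤ l / 4 →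
  ∀ ε : ℝ, 0 < ε → ∃ κ0 : ℝ, 0 < κ0 ∧ κ0 ≤ 1 / 100 ∧ ∀ ep : ℝ, 0 < ep → ep ≤ κ0 →
  ∀ e1 : ℝ, 0 < e1 → e1 ≤ κ0 → ∀ J : ℝ, 0 ≤ J → Real.exp (-(2 * Real.pi * J)) ≤ κ0 → ∃ m0 : ℕ,
  ∀ (p q : ℕ) (E : List ℂ) (m : ℕ), m = siz p q E → m0 ≤ m → Q p q → Win n0 (Hh ε m) E →
  ∀ g : Bool → ℂ → ℝ, Spk n1 K δ G g →
  ∀ (Z : Bool → Option NUP1S.O3 → ℂ → ℂ) (κ x0 : ℝ) (Qz : ℤ) (E0 : Set ℝ),
    NUGC.OneC Z (obC p q E (4 / 3 * (1 - ep)) g) (@NUSea.O.par0 (seaT (thc q m)) m) ep κ x0 Qz E0 →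
    ∑ N ∈ range (2 * m + 1), PBF.FE Z (@NUSea.O.par0 (seaT (thc q m)) m) N N
      (fun _ _ => @etaC (seaT (thc q m)) e1 J m m) (fun _ _ => @etaC' (seaT (thc q m)) e1 J m m)
      (fun _ _ _ _ _ => 1) ≤
    ENNReal.ofReal ((m : ℝ) ^ (A + ε) * Real.exp (@NUSea.MF (seaT (thc q m)) m +
      @intH (seaT (thc q m)) p q E g e1 J m) * Real.exp (-(12 * l * hC e1 J m 0)))

end UBC

end
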